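import Pool.Agent.H.MP_06dd87_an.I

set_option autoImplicit false
open Set Metric TopologicalSpace MeasureTheory

namespace Pool.Agent.Results.MP_06dd87_an.Yes

/-- rational functions with poles off `K`, as continuous functions on `K` -/
def rat (K : Compacts ℂ) : Set C(K, ℂ) :=
  {f | ∃ p q : Polynomial ℂ, (∀ z : K, q.eval (z : ℂ) ≠ 0) ∧ ∀ z : K, f z = p.eval (z : ℂ) / q.eval (z : ℂ)}

/-- the uniform algebra `R(K)` -/
noncomputable def R (K : Compacts ℂ) : Subalgebra ℂ C(K, ℂ) := (Algebra.adjoin ℂ (rat K)).topologicalClosure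

def Peak (K : Compacts ℂ) (x : K) : Prop := ∃ f ∈ R K, f x = 1 ∧ ∀ y, y ≠ x → ‖f y‖ < 1

def Part (K : Compacts ℂ) (x : K) : Set K := {y | ∃ c < 2, ∀ f ∈ R K, ‖f‖ ≤ 1 → ‖f x - f y‖ ≤ c}

def Cheese (K : Compacts ℂ) : Prop :=
  ∃ (c : ℂ) (ρ : ℝ) (a : ℕ → ℂ) (r : ℕ → ℝ), 0 < ρ ∧ (∀ n, 0 < r n) ∧
    (∀ m n, m ≠ n → Disjoint (closedBall (a m) (r m)) (closedBall (a n) (r n))) ∧
    (∀ n, closedBall (a n) (r n) ⊆ ball c ρ) ∧ Summable r ∧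
    (K : Set ℂ) = closedBall c ρ \ ⋃ n, ball (a n) (r n) ∧ interior (K : Set ℂ) = ∅

theorem result : ∃ K : Compacts ℂ, Cheese K ∧
    (∃ x : K, {y | ¬ Peak K y} = Part K x ∧ volume ((K : Set ℂ) \ (↑) '' Part K x) = 0) ∧
    ∀ (x : K) (D : R K →L[ℂ] ℂ), (∀ f g : R K, D (f * g) = f.1 x * D g + g.1 x * D f) → D = 0 := by
  obtain ⟨K, a, r, h1, h2, h3, h4, h5, h6, ⟨x, h7, h8⟩, h9⟩ := H.MP_06dd87_an.final
  have e : R K = (H.MP_65d7a7_an.RA K).topologicalClosure := congrArg _ H.MP_65d7a7_an.adj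
  refine ⟨K, ⟨0, 1, a, r, one_pos, h1, h2, h3, h4, h5, h6⟩, ?_⟩
  unfold Peak Part
  rw [e]
  simp only [H.MP_06dd87_an.Gl_iff]
  exact ⟨⟨x, Set.ext h7, h8⟩, h9⟩

end Pool.Agent.Results.MP_06dd87_an.Yes
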